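import Mathlib

/-!
# Reduced Groebner bases of ideals given by fibres

Term orders, leading exponents and reduced Groebner bases in `MvPolynomial σ k`, and the
description of the reduced Groebner basis of an ideal `I` which is determined by the fibres of an
additive map `dg` on exponents (a toric ideal): it consists of the binomials `x^u - x^v` with
`v` the minimum of the fibre of `u`, `u` not the minimum of its fibre, and every proper divisor of
`u` the minimum of its fibre.
-/

open MvPolynomial

namespace Pool.Agent.Q77.ToricGB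

variable {σ : Type} {k : Type} {M : Type}

/-- A term order (monomial order) on the exponent vectors indexed by `σ`. -/
structure TermOrder (σ : Type) where
  /-- the strict order -/
  lt : (σ →₀ ℕ) → (σ →₀ ℕ) → Prop
  trans : ∀ u v w, lt u v → lt v w → lt u w
  irrefl : ∀ u, ¬ lt u u
  total : ∀ u v, lt u v ∨ u = v ∨ lt v u
  zero_lt : ∀ u, u ≠ 0 → lt 0 u
  add_lt : ∀ u v w, lt u v → lt (u + w) (v + w)

/-- `u` is the exponent of the leading monomial of `f`. -/
def IsLead [Field k] (o : TermOrder σ) (f : MvPolynomial σ k) (u : σ →₀ ℕ) : Prop :=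
  u ∈ f.support ∧ ∀ v ∈ f.support, v ≠ u → o.lt v u

/-- `G` is the reduced Groebner basis of `I` with respect to the term order `o`. -/
structure IsReducedGroebner [Field k] (o : TermOrder σ) (I : Ideal (MvPolynomial σ k))
    (G : Set (MvPolynomial σ k)) : Prop where
  mem : ∀ g ∈ G, g ∈ I ∧ g ≠ 0
  groebner : ∀ f ∈ I, ∀ u, IsLead o f u → ∃ g ∈ G, ∃ v, IsLead o g v ∧ v ≤ u
  monic : ∀ g ∈ G, ∀ u, IsLead o g u → g.coeff u = 1
  reduced : ∀ g ∈ G, ∀ h ∈ G, g ≠ h → ∀ v, IsLead o h v → ∀ u ∈ g.support, ¬ v ≤ u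

/-! ### Term orders -/

namespace TermOrder

lemma asymm (o : TermOrder σ) {u v : σ →₀ ℕ} (h : o.lt u v) : ¬ o.lt v u :=
  fun h' => o.irrefl _ (o.trans _ _ _ h h')

lemma lt_of_le_ne (o : TermOrder σ) {u v : σ →₀ ℕ} (h : u ≤ v) (hne : u ≠ v) : o.lt u v := by
  obtain ⟨c, rfl⟩ := exists_add_of_le h
  have hc : c ≠ 0 := by
    rintro rfl
    exact hne (by simp)
  have := o.add_lt _ _ u (o.zero_lt c hc)
  rwa [zero_add, add_comm] at this

lemma wf [Finite σ] (o : TermOrder σ) : WellFounded o.lt := by
  have : IsStrictOrder (σ →₀ ℕ) o.lt := { irrefl := o.irrefl, trans := o.trans }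
  rw [RelEmbedding.wellFounded_iff_isEmpty]
  constructor
  intro f
  obtain ⟨m, n, hmn, hle⟩ := wellQuasiOrdered_le (α := σ →₀ ℕ) f
  have h1 : o.lt (f n) (f m) := f.map_rel_iff.2 hmn
  rcases eq_or_ne (f m) (f n) with he | hne
  · rw [he] at h1
    exact o.irrefl _ h1
  · exact o.asymm (o.lt_of_le_ne hle hne) h1

lemma exists_min [Finite σ] (o : TermOrder σ) (P : (σ →₀ ℕ) → Prop) (h : ∃ u, P u) :
    ∃ u, P u ∧ ∀ v, P v → ¬ o.lt v u := by
  obtain ⟨u, hu, hmin⟩ := o.wf.has_min {u | P u} h
  exact ⟨u, hu, hmin⟩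

end TermOrder

/-! ### Fibres -/

section Toric

variable [Field k]

/-- `I` is the ideal of all polynomials whose coefficient sums over the fibres of `dg` vanish. -/
def Fibred [AddCommMonoid M] (I : Ideal (MvPolynomial σ k)) (dg : (σ →₀ ℕ) →+ M) : Prop :=
  ∃ fib : M → MvPolynomial σ k →+ k,
    (∀ b u c, dg u = b → fib b (monomial u c) = c) ∧
    (∀ b u c, dg u ≠ b → fib b (monomial u c) = 0) ∧
    ∀ f, f ∈ I ↔ ∀ b, fib b f = 0

/-- `u` is minimal in its fibre -/
def Std [AddCommMonoid M] (dg : (σ →₀ ℕ) →+ M) (o : TermOrder σ) (u : σ →₀ ℕ) : Prop :=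
  ∀ v, dg v = dg u → ¬ o.lt v u

/-- the combinatorial description of the elements of reduced Groebner bases -/
structure GB [AddCommMonoid M] (dg : (σ →₀ ℕ) →+ M) (o : TermOrder σ) (u v : σ →₀ ℕ) :
    Prop where
  eq : dg u = dg v
  lt : o.lt v u
  std : Std dg o v
  min : ∀ w, w ≤ u → w ≠ u → Std dg o w

variable [AddCommMonoid M] {I : Ideal (MvPolynomial σ k)} {dg : (σ →₀ ℕ) →+ M}

lemma Std.mono {o : TermOrder σ} {u w : σ →₀ ℕ} (h : Std dg o u) (hw : w ≤ u) :
    Std dg o w := by
  obtain ⟨c, rfl⟩ := exists_add_of_le hw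
  intro v hv hlt
  refine h (v + c) ?_ (o.add_lt _ _ c hlt)
  rw [map_add, map_add, hv]

lemma binomial_mem (hI : Fibred I dg) {u v : σ →₀ ℕ} (h : dg u = dg v) :
    (monomial u (1 : k) - monomial v 1) ∈ I := by
  obtain ⟨fib, h1, h2, h3⟩ := hI
  rw [h3]
  intro b
  rw [map_sub]
  by_cases hb : dg u = b
  · rw [h1 b u 1 hb, h1 b v 1 (h ▸ hb), sub_self]
  · rw [h2 b u 1 hb, h2 b v 1 (h ▸ hb), sub_self]

/-- a nonzero element of the toric ideal with exponent `u` in the support has another exponent of
the same degree in the support -/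
lemma exists_other (hI : Fibred I dg) {f : MvPolynomial σ k} (hf : f ∈ I)
    {u : σ →₀ ℕ} (hu : u ∈ f.support) : ∃ v ∈ f.support, v ≠ u ∧ dg v = dg u := by
  obtain ⟨fib, h1, h2, h3⟩ := hI
  by_contra hcon
  push Not at hcon
  have h := (h3 f).1 hf (dg u)
  rw [f.as_sum, map_sum] at h
  rw [Finset.sum_eq_single u] at h
  · rw [h1 _ _ _ rfl] at h
    exact (mem_support_iff.1 hu) h
  · intro v hv hvu
    rw [h2 _ _ _ (hcon v hv hvu)]
  · intro hn; exact absurd hu hn

omit [AddCommMonoid M] in
lemma mem_support_binomial {u v w : σ →₀ ℕ} (h : u ≠ v) :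
    w ∈ ((monomial u (1 : k) - monomial v 1) : MvPolynomial σ k).support ↔ w = u ∨ w = v := by
  classical
  rw [mem_support_iff, coeff_sub, coeff_monomial, coeff_monomial]
  by_cases h1 : u = w <;> by_cases h2 : v = w
  · exact absurd (h1.trans h2.symm) h
  · simp [h1, h2]
  · simp [h1, h2]
  · simp only [if_neg h1, if_neg h2, sub_zero, ne_eq, not_true_eq_false, false_iff, not_or]
    exact ⟨fun h => h1 h.symm, fun h => h2 h.symm⟩

omit [AddCommMonoid M] in
lemma isLead_binomial (o : TermOrder σ) {u v : σ →₀ ℕ} (h : o.lt v u) :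
    IsLead o ((monomial u (1 : k) - monomial v 1) : MvPolynomial σ k) u := by
  have hne : u ≠ v := by rintro rfl; exact o.irrefl _ h
  refine ⟨(mem_support_binomial hne).2 (Or.inl rfl), ?_⟩
  intro w hw hwu
  rcases (mem_support_binomial hne).1 hw with rfl | rfl
  · exact absurd rfl hwu
  · exact h

omit [AddCommMonoid M] in
lemma isLead_unique (o : TermOrder σ) {f : MvPolynomial σ k} {u v : σ →₀ ℕ}
    (hu : IsLead o f u) (hv : IsLead o f v) : u = v := by
  by_contra hne
  exact o.asymm (hu.2 v hv.1 (Ne.symm hne)) (hv.2 u hu.1 hne)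

omit [AddCommMonoid M] in
lemma exists_lead (o : TermOrder σ) {f : MvPolynomial σ k} (hf : f ≠ 0) :
    ∃ u, IsLead o f u := by
  classical
  have hs : f.support.Nonempty := by
    rw [Finset.nonempty_iff_ne_empty]
    intro h
    exact hf (support_eq_empty.1 h)
  -- a maximal element of a finite set
  have key : ∀ s : Finset (σ →₀ ℕ), s.Nonempty → ∃ u ∈ s, ∀ v ∈ s, v ≠ u → o.lt v u := by
    intro s hs
    induction hs using Finset.Nonempty.cons_induction with
    | singleton x =>
      refine ⟨x, by simp, ?_⟩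
      intro v hv hne
      exact absurd (Finset.mem_singleton.1 hv) hne
    | cons x s hx hs ih =>
      obtain ⟨u, hu, hmax⟩ := ih
      rcases o.total x u with h | h | h
      · refine ⟨u, Finset.mem_cons_of_mem hu, ?_⟩
        intro v hv hne
        rcases Finset.mem_cons.1 hv with rfl | hv
        · exact h
        · exact hmax v hv hne
      · exact absurd (h ▸ hu) hx
      · refine ⟨x, Finset.mem_cons_self _ _, ?_⟩
        intro v hv hne
        rcases Finset.mem_cons.1 hv with rfl | hv
        · exact absurd rfl hne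
        · by_cases hvu : v = u
          · exact hvu ▸ h
          · exact o.trans _ _ _ (hmax v hv hvu) h
  obtain ⟨u, hu, hmax⟩ := key _ hs
  exact ⟨u, hu, hmax⟩

/-- elements of a reduced Groebner basis of a toric ideal -/
lemma gb_of_mem [Finite σ] (hI : Fibred I dg) (o : TermOrder σ)
    {G : Set (MvPolynomial σ k)} (hG : IsReducedGroebner o I G)
    {g : MvPolynomial σ k} (hg : g ∈ G) :
    ∃ u v, GB dg o u v ∧ g = monomial u 1 - monomial v 1 := by
  classical
  obtain ⟨u, hu⟩ := exists_lead o (hG.mem g hg).2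
  -- the general principle: a non-standard exponent is divisible by the lead of an element
  have hdiv : ∀ w, ¬ Std dg o w → ∃ h ∈ G, ∃ v, IsLead o h v ∧ v ≤ w := by
    intro w hw
    unfold Std at hw
    push Not at hw
    obtain ⟨v, hv, hlt⟩ := hw
    exact hG.groebner _ (binomial_mem hI hv.symm) w (isLead_binomial o hlt)
  have hsupp : ∀ w ∈ g.support, w ≠ u → Std dg o w := by
    intro w hw hwu
    by_contra hns
    obtain ⟨h, hh, v, hv, hvw⟩ := hdiv w hns
    by_cases hgh : g = h
    · subst hgh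
      have : u = v := isLead_unique o hu hv
      subst this
      exact o.asymm (hu.2 w hw hwu) (o.lt_of_le_ne hvw (Ne.symm hwu))
    · exact hG.reduced g hg h hh hgh v hv w hw hvw
  have hmin : ∀ w, w ≤ u → w ≠ u → Std dg o w := by
    intro w hw hwu
    by_contra hns
    obtain ⟨h, hh, v, hv, hvw⟩ := hdiv w hns
    by_cases hgh : g = h
    · subst hgh
      have : u = v := isLead_unique o hu hv
      subst this
      exact hwu (le_antisymm hw hvw)
    · exact hG.reduced g hg h hh hgh v hv u hu.1 (hvw.trans hw)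
  obtain ⟨u', hu', hne, hdeg⟩ := exists_other hI (hG.mem g hg).1 hu.1
  obtain ⟨v, hv, hvmin⟩ := o.exists_min (fun w => dg w = dg u) ⟨u, rfl⟩
  have hvu : o.lt v u := by
    have h1 : o.lt u' u := hu.2 u' hu' hne
    rcases o.total v u' with h | h | h
    · exact o.trans _ _ _ h h1
    · exact h ▸ h1
    · exact absurd h (hvmin u' hdeg)
  have hstd : Std dg o v := fun w hw => hvmin w (hw.trans hv)
  refine ⟨u, v, ⟨hv.symm, hvu, hstd, hmin⟩, ?_⟩
  by_contra hcon
  have hne0 : g - (monomial u 1 - monomial v 1) ≠ 0 := sub_ne_zero.2 hcon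
  have hmem : g - (monomial u 1 - monomial v 1) ∈ I :=
    Ideal.sub_mem _ (hG.mem g hg).1 (binomial_mem hI hv.symm)
  obtain ⟨w, hw⟩ := exists_lead o hne0
  obtain ⟨w', hw', hw'ne, hw'd⟩ := exists_other hI hmem hw.1
  have hlt : o.lt w' w := hw.2 w' hw' hw'ne
  have hnstd : ¬ Std dg o w := fun h => h w' hw'd hlt
  have hvne : u ≠ v := by rintro rfl; exact o.irrefl _ hvu
  have hwu : w ≠ u := by
    rintro rfl
    have := mem_support_iff.1 hw.1
    rw [coeff_sub, coeff_sub, coeff_monomial, coeff_monomial, if_pos rfl,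
      if_neg (Ne.symm hvne), hG.monic g hg w hu] at this
    simp at this
  by_cases hwv : w = v
  · exact hnstd (hwv ▸ hstd)
  · apply hnstd
    apply hsupp w _ hwu
    rw [mem_support_iff]
    have := mem_support_iff.1 hw.1
    rwa [coeff_sub, coeff_sub, coeff_monomial, coeff_monomial, if_neg (Ne.symm hwu),
      if_neg (Ne.symm hwv), sub_zero, sub_zero] at this

/-- the set of binomials described by `GB` -/
def gbSet (k : Type) [Field k] (dg : (σ →₀ ℕ) →+ M) (o : TermOrder σ) :
    Set (MvPolynomial σ k) :=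
  {g | ∃ u v, GB dg o u v ∧ g = monomial u (1 : k) - monomial v 1}

/-- the combinatorial description gives a reduced Groebner basis -/
lemma isReducedGroebner_gb [Finite σ] (hI : Fibred I dg) (o : TermOrder σ) :
    IsReducedGroebner o I (gbSet k dg o) := by
  classical
  have hlead : ∀ {u v w : σ →₀ ℕ}, GB dg o u v →
      IsLead o ((monomial u (1 : k) - monomial v 1) : MvPolynomial σ k) w → w = u := by
    intro u v w h hw
    exact isLead_unique o hw (isLead_binomial o h.lt)
  refine ⟨?_, ?_, ?_, ?_⟩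
  · rintro g ⟨u, v, h, rfl⟩
    refine ⟨binomial_mem hI h.eq, ?_⟩
    intro h0
    have := (isLead_binomial (k := k) o h.lt).1
    rw [h0] at this
    simp at this
  · intro f hf u hu
    obtain ⟨v, hv, hvu, hdv⟩ := exists_other hI hf hu.1
    have hns : ¬ Std dg o u := fun h => h v hdv (hu.2 v hv hvu)
    -- take a minimal non-standard divisor
    obtain ⟨u1, ⟨hu1, hu1n⟩, hu1min⟩ := o.exists_min (fun w => w ≤ u ∧ ¬ Std dg o w)
      ⟨u, le_rfl, hns⟩
    obtain ⟨v1, hv1, hv1min⟩ := o.exists_min (fun w => dg w = dg u1) ⟨u1, rfl⟩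
    have hlt : o.lt v1 u1 := by
      unfold Std at hu1n
      push Not at hu1n
      obtain ⟨v', hv', hlt'⟩ := hu1n
      rcases o.total v1 v' with h | h | h
      · exact o.trans _ _ _ h hlt'
      · exact h ▸ hlt'
      · exact absurd h (hv1min v' hv')
    have hgb : GB dg o u1 v1 := by
      refine ⟨hv1.symm, hlt, fun w hw => hv1min w (hw.trans hv1), ?_⟩
      intro w hw hwu
      by_contra hn
      exact hu1min w ⟨hw.trans hu1, hn⟩ (o.lt_of_le_ne hw hwu)
    exact ⟨_, ⟨u1, v1, hgb, rfl⟩, u1, isLead_binomial o hlt, hu1⟩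
  · rintro g ⟨u, v, h, rfl⟩ w hw
    have := hlead h hw
    subst this
    have hne : w ≠ v := by rintro rfl; exact o.irrefl _ h.lt
    rw [coeff_sub, coeff_monomial, coeff_monomial, if_pos rfl, if_neg (Ne.symm hne), sub_zero]
  · rintro g ⟨u, v, h, rfl⟩ g' ⟨u', v', h', rfl⟩ hne w hw x hx hle
    have := hlead h' hw
    subst this
    have huv : u ≠ v := by rintro rfl; exact o.irrefl _ h.lt
    have hns : ¬ Std dg o w := fun hs => hs v' h'.eq.symm h'.lt
    rcases (mem_support_binomial huv).1 hx with rfl | rfl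
    · by_cases hwx : w = x
      · subst hwx
        apply hne
        have : v = v' := by
          rcases o.total v v' with h1 | h1 | h1
          · exact absurd h1 (h'.std v (h.eq.symm.trans h'.eq))
          · exact h1
          · exact absurd h1 (h.std v' (h'.eq.symm.trans h.eq))
        rw [this]
      · exact hns (h.min w hle hwx)
    · obtain ⟨c, rfl⟩ := exists_add_of_le hle
      have h1 : o.lt (v' + c) (w + c) := o.add_lt _ _ c h'.lt
      have h2 : dg (v' + c) = dg (w + c) := by rw [map_add, map_add, h'.eq]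
      exact h.std _ h2 h1

/-- the reduced Groebner basis is unique -/
lemma eq_gbSet [Finite σ] (hI : Fibred I dg) (o : TermOrder σ)
    {G : Set (MvPolynomial σ k)} (hG : IsReducedGroebner o I G) : G = gbSet k dg o := by
  ext g
  constructor
  · exact fun hg => gb_of_mem hI o hG hg
  · rintro ⟨u, v, h, rfl⟩
    obtain ⟨g', hg', w, hw, hwu⟩ := hG.groebner _ (binomial_mem (k := k) hI h.eq) u
      (isLead_binomial o h.lt)
    obtain ⟨u', v', h', rfl⟩ := gb_of_mem hI o hG hg'
    have hwu' : w = u' := isLead_unique o hw (isLead_binomial o h'.lt)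
    subst hwu'
    have hns : ¬ Std dg o w := fun hs => hs v' h'.eq.symm h'.lt
    by_cases hwx : w = u
    · subst hwx
      have : v = v' := by
        rcases o.total v v' with h1 | h1 | h1
        · exact absurd h1 (h'.std v (h.eq.symm.trans h'.eq))
        · exact h1
        · exact absurd h1 (h.std v' (h'.eq.symm.trans h.eq))
      rwa [this]
    · exact absurd (h.min w hwu hwx) hns

end Toric

end Pool.Agent.Q77.ToricGB
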