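import Mathlib
import Pool.Agent.Q77.ToricGB

/-!
# The toric ideal of the polytope of symmetric 2-stochastic matrices
-/

open MvPolynomial Pool.Agent.Q77.ToricGB

namespace Pool.Agent.Q77.SymStoch

/-- The lattice points of the polytope `S_n`: symmetric matrices with nonnegative integer entries
all whose row sums (hence column sums) are `2`. -/
def Pt (n : ℕ) : Type := {M : Matrix (Fin n) (Fin n) ℕ // M.IsSymm ∧ ∀ i, ∑ j, M i j = 2}

variable {n : ℕ}

lemma entry_le (M : Pt n) (i j : Fin n) : M.1 i j ≤ 2 := by
  exact (Finset.single_le_sum (f := fun j => M.1 i j) (fun _ _ => Nat.zero_le _)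
    (Finset.mem_univ j)).trans (M.2.2 i).le

instance : Finite (Pt n) := by
  refine Finite.of_injective
    (fun M : Pt n => fun i j => (⟨M.1 i j, Nat.lt_succ_of_le (entry_le M i j)⟩ : Fin 3)) ?_
  intro M N h
  apply Subtype.ext
  ext i j
  have := congrFun (congrFun h i) j
  simpa using this

/-- The map `π : k[t_M] → k[x_ij, z]`, `π(t_M) = x^M z`; the variable `z` is `X none`, the
variable `x_ij` is `X (some (i, j))`. -/
noncomputable def piMap (k : Type) [Field k] (n : ℕ) :
    MvPolynomial (Pt n) k →ₐ[k] MvPolynomial (Option (Fin n × Fin n)) k :=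
  aeval fun M => (∏ i, ∏ j, X (some (i, j)) ^ (M.1 i j)) * X none

/-- The toric ideal `I_{S_n} = ker π`. -/
noncomputable def toricIdeal (k : Type) [Field k] (n : ℕ) : Ideal (MvPolynomial (Pt n) k) :=
  RingHom.ker (piMap k n)

/-- the number of entries equal to `2` -/
def twos (M : Pt n) : ℕ := (Finset.univ.filter fun p : Fin n × Fin n => M.1 p.1 p.2 = 2).card

/-- `r` is one of the total orders `<_{S_n}`: a strict total order on the lattice points in which
a matrix with more entries equal to `2` is smaller. -/
structure Admissible (r : Pt n → Pt n → Prop) : Prop where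
  total : IsStrictTotalOrder (Pt n) r
  twos : ∀ M N, twos N < twos M → r M N

/-- The graded reverse lexicographic order with the variables ordered by `r`: `t^u ≺ t^v` iff
`deg u < deg v`, or `deg u = deg v` and at the `r`-smallest variable where the exponents differ,
the exponent in `u` is larger. In particular `t_i ≺ t_j` iff `r i j`. -/
noncomputable def grevlex {σ : Type} [Finite σ] (r : σ → σ → Prop)
    (hr : IsStrictTotalOrder σ r) : TermOrder σ where
  lt u v := u.degree < v.degree ∨ (u.degree = v.degree ∧
    ∃ i, v i < u i ∧ ∀ j, r j i → u j = v j)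
  trans u v w h h' := by
    rcases h with h | ⟨h, i, hi, h1⟩ <;> rcases h' with h' | ⟨h', j, hj, h1'⟩
    · exact Or.inl (h.trans h')
    · exact Or.inl (by omega)
    · exact Or.inl (by omega)
    · refine Or.inr ⟨h.trans h', ?_⟩
      rcases trichotomous_of r i j with hij | hij | hij
      · refine ⟨i, ?_, ?_⟩
        · rw [← h1' i hij]; exact hi
        · intro l hl
          rw [h1 l hl, h1' l (_root_.trans hl hij)]
      · subst hij
        refine ⟨i, hj.trans hi, ?_⟩
        intro l hl
        rw [h1 l hl, h1' l hl]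
      · refine ⟨j, ?_, ?_⟩
        · rw [h1 j hij]; exact hj
        · intro l hl
          rw [h1 l (_root_.trans hl hij), h1' l hl]
  irrefl u := by
    rintro (h | ⟨-, i, h, -⟩)
    · exact lt_irrefl _ h
    · exact lt_irrefl _ h
  total u v := by
    rcases lt_trichotomy u.degree v.degree with h | h | h
    · exact Or.inl (Or.inl h)
    · by_cases huv : u = v
      · exact Or.inr (Or.inl huv)
      · have hwf : WellFounded r := Finite.wellFounded_of_trans_of_irrefl r
        have hne : ∃ i, u i ≠ v i := by
          by_contra hcon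
          push Not at hcon
          exact huv (Finsupp.ext hcon)
        obtain ⟨i, hi, hmin⟩ := hwf.has_min {i | u i ≠ v i} hne
        have hlow : ∀ j, r j i → u j = v j := by
          intro j hj
          by_contra hcon
          exact hmin j hcon hj
        rcases lt_or_gt_of_ne hi with h1 | h1
        · exact Or.inr (Or.inr (Or.inr ⟨h.symm, i, h1, fun j hj => (hlow j hj).symm⟩))
        · exact Or.inl (Or.inr ⟨h, i, h1, hlow⟩)
    · exact Or.inr (Or.inr (Or.inl h))
  zero_lt u hu := by
    left
    rw [map_zero]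
    rcases Nat.eq_zero_or_pos u.degree with h | h
    · exact absurd ((Finsupp.degree_eq_zero_iff u).1 h) hu
    · exact h
  add_lt u v w h := by
    rcases h with h | ⟨h, i, hi, h1⟩
    · left
      rw [map_add, map_add]; omega
    · right
      refine ⟨by rw [map_add, map_add]; omega, i, ?_, ?_⟩
      · rw [Finsupp.add_apply, Finsupp.add_apply]; omega
      · intro j hj
        rw [Finsupp.add_apply, Finsupp.add_apply, h1 j hj]

/-- `A` is the matrix of the binomial `g`, which has degree `d`: `g = t^u - t^v` with `u ≠ v` of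
degree `d` and `π(t^u) = π(t^v) = x^A z^d`. -/
def HasMatrix {k : Type} [Field k] (g : MvPolynomial (Pt n) k) (A : Matrix (Fin n) (Fin n) ℕ)
    (d : ℕ) : Prop :=
  ∃ u v : Pt n →₀ ℕ, u ≠ v ∧ g = monomial u 1 - monomial v 1 ∧ u.degree = d ∧ v.degree = d ∧
    piMap k n (monomial u 1) = (∏ i, ∏ j, X (some (i, j)) ^ (A i j)) * X none ^ d ∧
    piMap k n (monomial v 1) = (∏ i, ∏ j, X (some (i, j)) ^ (A i j)) * X none ^ d

/-! ### Exponents -/

/-- exponent of `x^A z^d` -/
noncomputable def expo (A : Matrix (Fin n) (Fin n) ℕ) (d : ℕ) :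
    Option (Fin n × Fin n) →₀ ℕ :=
  Finsupp.equivFunOnFinite.symm (fun o => o.elim d (fun p => A p.1 p.2))

@[simp] lemma expo_none (A : Matrix (Fin n) (Fin n) ℕ) (d : ℕ) : expo A d none = d := rfl

@[simp] lemma expo_some (A : Matrix (Fin n) (Fin n) ℕ) (d : ℕ) (p : Fin n × Fin n) :
    expo A d (some p) = A p.1 p.2 := rfl

lemma monomial_expo {k : Type} [Field k] (A : Matrix (Fin n) (Fin n) ℕ) (d : ℕ) :
    (monomial (expo A d) (1 : k)) = (∏ i, ∏ j, X (some (i, j)) ^ (A i j)) * X none ^ d := by
  classical
  rw [monomial_eq, C_1, one_mul, Finsupp.prod_fintype _ _ (fun i => pow_zero _),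
    Fintype.prod_option, expo_none, mul_comm, Fintype.prod_prod_type]
  rfl

/-- the multidegree -/
noncomputable def dg : (Pt n →₀ ℕ) →+ (Option (Fin n × Fin n) →₀ ℕ) :=
  Finsupp.weight (R := ℕ) (fun M : Pt n => expo M.1 1)

lemma dg_single (M : Pt n) (c : ℕ) : dg (Finsupp.single M c) = c • expo M.1 1 :=
  Finsupp.weight_single _ _ _

lemma piMap_monomial {k : Type} [Field k] (u : Pt n →₀ ℕ) (c : k) :
    piMap k n (monomial u c) = monomial (dg u) c := by
  induction u using Finsupp.induction with
  | zero =>
    rw [map_zero]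
    exact (piMap k n).commutes c
  | single_add i m u _ _ ih =>
    have h1 : piMap k n (X i) = monomial (expo i.1 1) 1 := by
      rw [monomial_expo, piMap, aeval_X, pow_one]
    rw [monomial_single_add, map_mul, ih, map_pow, h1, monomial_pow, one_pow, monomial_mul,
      one_mul, map_add, dg_single]

lemma fibred (k : Type) [Field k] (n : ℕ) : Fibred (toricIdeal k n) (dg (n := n)) := by
  classical
  refine ⟨fun b => (coeffAddMonoidHom b).comp (piMap k n : MvPolynomial (Pt n) k →+
    MvPolynomial (Option (Fin n × Fin n)) k), ?_, ?_, ?_⟩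
  · intro b u c h
    show coeff b (piMap k n (monomial u c)) = c
    rw [piMap_monomial, coeff_monomial, if_pos h]
  · intro b u c h
    show coeff b (piMap k n (monomial u c)) = 0
    rw [piMap_monomial, coeff_monomial, if_neg h]
  · intro f
    have h1 : f ∈ toricIdeal k n ↔ piMap k n f = 0 := Iff.rfl
    rw [h1]
    constructor
    · intro h b
      show coeff b (piMap k n f) = 0
      rw [h, coeff_zero]
    · intro h
      ext b
      rw [coeff_zero]
      exact h b

lemma dg_none (w : Pt n →₀ ℕ) : dg w none = w.degree := by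
  induction w using Finsupp.induction with
  | zero => simp
  | single_add i m u _ _ ih =>
    rw [map_add, map_add, Finsupp.add_apply, ih, dg_single, Finsupp.degree_single]
    simp

lemma dg_single_some (M : Pt n) (c : ℕ) (i j : Fin n) :
    dg (Finsupp.single M c) (some (i, j)) = c * M.1 i j := by
  rw [dg_single]
  simp

lemma dg_mono {w s : Pt n →₀ ℕ} (h : s ≤ w) (p : Option (Fin n × Fin n)) : dg s p ≤ dg w p := by
  obtain ⟨c, rfl⟩ := exists_add_of_le h
  rw [map_add, Finsupp.add_apply]
  omega

lemma entry_le_dg {w : Pt n →₀ ℕ} {M : Pt n} {c : ℕ} (h : c ≤ w M) (i j : Fin n) :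
    c * M.1 i j ≤ dg w (some (i, j)) := by
  classical
  rw [← dg_single_some]
  apply dg_mono
  intro x
  rw [Finsupp.single_apply]
  split_ifs with hx
  · rw [← hx]; exact h
  · exact Nat.zero_le _

lemma entry_le_dg2 {w : Pt n →₀ ℕ} {M N : Pt n} {c d : ℕ} (hMN : M ≠ N) (h : c ≤ w M)
    (h' : d ≤ w N) (i j : Fin n) :
    c * M.1 i j + d * N.1 i j ≤ dg w (some (i, j)) := by
  classical
  rw [← dg_single_some, ← dg_single_some, ← Finsupp.add_apply, ← map_add]
  apply dg_mono
  intro x
  rw [Finsupp.add_apply, Finsupp.single_apply, Finsupp.single_apply]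
  split_ifs with hx hx'
  · exact absurd (hx.trans hx'.symm) hMN
  · rw [← hx]; omega
  · rename_i h2
    rw [← h2]; omega
  · exact Nat.zero_le _

lemma sum_le_degree (w : Pt n →₀ ℕ) (s : Finset (Pt n)) : ∑ M ∈ s, w M ≤ w.degree := by
  classical
  let _ : Fintype (Pt n) := Fintype.ofFinite _
  rw [Finsupp.degree_eq_sum]
  exact Finset.sum_le_sum_of_subset (Finset.subset_univ s)

/-! ### Rows -/

lemma row_two {M : Pt n} {i j : Fin n} (h : M.1 i j = 2) {j' : Fin n} (hj : j' ≠ j) :
    M.1 i j' = 0 := by
  classical
  have h1 := M.2.2 i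
  have h2 : M.1 i j + M.1 i j' ≤ ∑ j, M.1 i j := by
    rw [← Finset.sum_pair (f := fun j => M.1 i j) hj.symm]
    exact Finset.sum_le_sum_of_subset (Finset.subset_univ _)
  omega

lemma symm (M : Pt n) (i j : Fin n) : M.1 i j = M.1 j i := M.2.1.apply j i

lemma rows_of_twos {M : Pt n} (h : n ≤ twos M) (i : Fin n) : ∃ j, M.1 i j = 2 := by
  classical
  by_contra hcon
  push Not at hcon
  have h1 : twos M ≤ (Finset.univ.erase i).card := by
    apply Finset.card_le_card_of_injOn Prod.fst
    · intro p hp
      have hp' : M.1 p.1 p.2 = 2 := by simpa using hp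
      simp only [Finset.coe_erase, Finset.coe_univ, Set.mem_sdiff, Set.mem_univ,
        Set.mem_singleton_iff, true_and]
      intro he
      exact hcon p.2 (he ▸ hp')
    · intro p hp q hq hpq
      have hp' : M.1 p.1 p.2 = 2 := by simpa using hp
      have hq' : M.1 q.1 q.2 = 2 := by simpa using hq
      apply Prod.ext hpq
      by_contra hne
      rw [← hpq] at hq'
      have := row_two hq' hne
      omega
  rw [Finset.card_erase_of_mem (Finset.mem_univ i), Finset.card_univ, Fintype.card_fin] at h1
  have : 0 < n := Fin.pos i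
  omega

lemma twos_of_rows {M : Pt n} (h : ∀ i, ∃ j, M.1 i j = 2) : n ≤ twos M := by
  classical
  choose f hf using h
  have h1 : (Finset.univ : Finset (Fin n)).card ≤ twos M := by
    apply Finset.card_le_card_of_injOn (fun i => (i, f i))
    · intro i _
      simp [hf i]
    · intro i _ j _ hij
      exact (Prod.ext_iff.1 hij).1
  simpa using h1

/-! ### The matrices -/

/-- the matrix with entries `2` at the positions `(i, swap x y i)` -/
def T (x y : Fin n) : Pt n :=
  ⟨Matrix.of fun i j => if Equiv.swap x y i = j then 2 else 0, by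
    refine ⟨?_, fun i => by simp⟩
    refine Matrix.IsSymm.ext fun i j => ?_
    have : Equiv.swap x y j = i ↔ Equiv.swap x y i = j := by
      constructor
      · rintro rfl; simp
      · rintro rfl; simp
    simp only [Matrix.of_apply, this]⟩

/-- twice the identity matrix -/
def D : Pt n :=
  ⟨Matrix.of fun i j => if i = j then 2 else 0, by
    refine ⟨?_, fun i => by simp⟩
    refine Matrix.IsSymm.ext fun i j => ?_
    simp only [Matrix.of_apply, eq_comm]⟩

lemma T_apply (x y i j : Fin n) : (T x y).1 i j = if Equiv.swap x y i = j then 2 else 0 := rfl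

lemma D_apply (i j : Fin n) : (D : Pt n).1 i j = if i = j then 2 else 0 := rfl

/-- the entries of `C` -/
def cFun (a b c i j : Fin n) : ℕ :=
  if i = j then (if i = a ∨ i = b ∨ i = c then 0 else 2)
  else if (i = a ∨ i = b ∨ i = c) ∧ (j = a ∨ j = b ∨ j = c) then 1 else 0

/-- the matrix `A` -/
def aFun (a b c i j : Fin n) : ℕ :=
  if (i = a ∨ i = b ∨ i = c) ∧ (j = a ∨ j = b ∨ j = c) then 2 else if i = j then 6 else 0

lemma sum_three {f : Fin n → ℕ} {a b c : Fin n} (hab : a ≠ b) (hac : a ≠ c) (hbc : b ≠ c)
    (h : ∀ j, j ≠ a → j ≠ b → j ≠ c → f j = 0) : ∑ j, f j = f a + f b + f c := by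
  classical
  rw [← Finset.sum_subset (Finset.subset_univ {a, b, c})]
  · rw [Finset.sum_insert (by simp [hab, hac]), Finset.sum_pair hbc]; ring
  · intro x _ hx
    simp only [Finset.mem_insert, Finset.mem_singleton, not_or] at hx
    exact h x hx.1 hx.2.1 hx.2.2

section

variable {a b c : Fin n} (hab : a ≠ b) (hac : a ≠ c) (hbc : b ≠ c)

include hab hac hbc

lemma cFun_sum (i : Fin n) : ∑ j, cFun a b c i j = 2 := by
  classical
  by_cases hi : i = a ∨ i = b ∨ i = c
  · rw [sum_three hab hac hbc]
    · rcases hi with rfl | rfl | rfl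
      · simp [cFun, hab, hac]
      · simp [cFun, hab.symm, hbc]
      · simp [cFun, hac.symm, hbc.symm]
    · intro j h1 h2 h3
      have hij : i ≠ j := by
        rintro rfl
        rcases hi with h | h | h
        · exact h1 h
        · exact h2 h
        · exact h3 h
      simp [cFun, hij, h1, h2, h3]
  · rw [Finset.sum_eq_single i]
    · simp [cFun, hi]
    · intro j _ hj
      simp [cFun, hi, Ne.symm hj]
    · intro h; exact absurd (Finset.mem_univ i) h

/-- the matrix of the 3-cycle plus its inverse -/
def C : Pt n :=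
  ⟨Matrix.of (cFun a b c), by
    refine ⟨?_, cFun_sum hab hac hbc⟩
    refine Matrix.IsSymm.ext fun i j => ?_
    simp only [Matrix.of_apply, cFun]
    by_cases h : i = j
    · subst h; simp
    · have h' : j ≠ i := fun e => h e.symm
      simp only [h, h', if_false, and_comm]⟩

lemma C_apply (i j : Fin n) : (C hab hac hbc).1 i j = cFun a b c i j := rfl

lemma sum_T (i j : Fin n) : (T a b).1 i j + (T a c).1 i j + (T b c).1 i j = aFun a b c i j := by
  rw [T_apply, T_apply, T_apply]
  by_cases hia : i = a
  · subst hia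
    simp only [Equiv.swap_apply_left, Equiv.swap_apply_of_ne_of_ne hab hac, aFun]
    by_cases h1 : i = j
    · subst h1
      simp [hab.symm, hac.symm]
    · by_cases h2 : b = j
      · subst h2; simp [hbc.symm, h1]
      · by_cases h3 : c = j
        · subst h3; simp [hbc, h1]
        · simp [h1, h2, h3, Ne.symm h1, Ne.symm h2, Ne.symm h3]
  · by_cases hib : i = b
    · subst hib
      simp only [Equiv.swap_apply_left, Equiv.swap_apply_right,
        Equiv.swap_apply_of_ne_of_ne hab.symm hbc, aFun]
      by_cases h1 : a = j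
      · subst h1
        simp [hac.symm, hab.symm]
      · by_cases h2 : i = j
        · subst h2; simp [hbc.symm, hab]
        · by_cases h3 : c = j
          · subst h3; simp [hac, hbc]
          · simp [h1, h2, h3, Ne.symm h1, Ne.symm h2, Ne.symm h3]
    · by_cases hic : i = c
      · subst hic
        simp only [Equiv.swap_apply_right,
          Equiv.swap_apply_of_ne_of_ne hac.symm hbc.symm, aFun]
        by_cases h1 : a = j
        · subst h1
          simp [hab.symm, hac.symm]
        · by_cases h2 : b = j
          · subst h2; simp [hbc.symm, hab]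
          · by_cases h3 : i = j
            · subst h3; simp [hac, hbc]
            · simp [h1, h2, h3, Ne.symm h1, Ne.symm h2, Ne.symm h3]
      · rw [Equiv.swap_apply_of_ne_of_ne hia hib, Equiv.swap_apply_of_ne_of_ne hia hic,
          Equiv.swap_apply_of_ne_of_ne hib hic]
        by_cases h : i = j
        · subst h; simp [aFun, hia, hib, hic]
        · simp [aFun, hia, hib, hic, h]

lemma sum_C (i j : Fin n) :
    (D : Pt n).1 i j + 2 * (C hab hac hbc).1 i j = aFun a b c i j := by
  rw [D_apply, C_apply, cFun, aFun]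
  by_cases h : i = j
  · subst h
    simp only [if_true, and_self]
    split_ifs <;> rfl
  · simp only [h, if_false]
    split_ifs <;> rfl

/-- facts about the entries of a matrix below `A` -/
lemma rows_of_le {M : Pt n} (h : ∀ i j, M.1 i j ≤ aFun a b c i j) :
    (∀ i, i ≠ a → i ≠ b → i ≠ c → M.1 i i = 2) ∧
    M.1 a a + M.1 a b + M.1 a c = 2 ∧ M.1 a b + M.1 b b + M.1 b c = 2 ∧
    M.1 a c + M.1 b c + M.1 c c = 2 := by
  classical
  have key : ∀ i, i = a ∨ i = b ∨ i = c → M.1 i a + M.1 i b + M.1 i c = 2 := by
    intro i hi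
    refine Eq.trans ?_ (M.2.2 i)
    rw [sum_three hab hac hbc]
    intro j h1 h2 h3
    have hij : i ≠ j := by
      rintro rfl
      rcases hi with h | h | h
      · exact h1 h
      · exact h2 h
      · exact h3 h
    have := h i j
    simp [aFun, h1, h2, h3, hij] at this
    exact this
  refine ⟨?_, key a (Or.inl rfl), ?_, ?_⟩
  · intro i h1 h2 h3
    have hs := M.2.2 i
    rw [Finset.sum_eq_single i] at hs
    · exact hs
    · intro j _ hj
      have := h i j
      simp [aFun, h1, h2, h3, Ne.symm hj] at this
      exact this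
    · intro h; exact absurd (Finset.mem_univ i) h
  · have := key b (Or.inr (Or.inl rfl))
    rw [symm M b a] at this
    exact this
  · have := key c (Or.inr (Or.inr rfl))
    rw [symm M c a, symm M c b] at this
    exact this

omit hab hac hbc in
lemma eq_T {M : Pt n} {x y : Fin n} (h : ∀ i, M.1 i (Equiv.swap x y i) = 2) : M = T x y := by
  apply Subtype.ext
  ext i j
  rw [T_apply]
  split_ifs with hj
  · rw [← hj]; exact h i
  · exact row_two (h i) (Ne.symm hj)

omit hab hac hbc in
lemma eq_D {M : Pt n} (h : ∀ i, M.1 i i = 2) : M = D := by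
  apply Subtype.ext
  ext i j
  rw [D_apply]
  split_ifs with hj
  · rw [← hj]; exact h i
  · exact row_two (h i) (Ne.symm hj)

/-- a matrix below `A` all whose rows contain a `2` -/
lemma four {M : Pt n} (h : ∀ i j, M.1 i j ≤ aFun a b c i j) (h2 : n ≤ twos M) :
    M = D ∨ M = T a b ∨ M = T a c ∨ M = T b c := by
  obtain ⟨h3, ha, hb, hc⟩ := rows_of_le hab hac hbc h
  have hrow : ∀ i, i = a ∨ i = b ∨ i = c → M.1 i a = 2 ∨ M.1 i b = 2 ∨ M.1 i c = 2 := by
    intro i hi
    obtain ⟨j, hj⟩ := rows_of_twos h2 i
    by_cases h1 : j = a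
    · subst h1; exact Or.inl hj
    · by_cases h2 : j = b
      · subst h2; exact Or.inr (Or.inl hj)
      · by_cases h3 : j = c
        · subst h3; exact Or.inr (Or.inr hj)
        · exfalso
          have hij : i ≠ j := by
            rintro rfl
            rcases hi with h | h | h
            · exact h1 h
            · exact h2 h
            · exact h3 h
          have := h i j
          simp [aFun, h1, h2, h3, hij] at this
          omega
  have ra := hrow a (Or.inl rfl)
  have rb := hrow b (Or.inr (Or.inl rfl))
  have rc := hrow c (Or.inr (Or.inr rfl))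
  have sab := symm M b a
  have sac := symm M c a
  have sbc := symm M c b
  have hD : M.1 a a = 2 → M.1 b b = 2 → M.1 c c = 2 → M = D := by
    intro h4 h5 h6
    apply eq_D
    intro i
    by_cases hia : i = a
    · subst hia; exact h4
    · by_cases hib : i = b
      · subst hib; exact h5
      · by_cases hic : i = c
        · subst hic; exact h6
        · exact h3 i hia hib hic
  have hTab : M.1 a b = 2 → M.1 c c = 2 → M = T a b := by
    intro h4 h5
    apply eq_T
    intro i
    by_cases hia : i = a
    · subst hia; rw [Equiv.swap_apply_left]; exact h4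
    · by_cases hib : i = b
      · subst hib; rw [Equiv.swap_apply_right, symm]; exact h4
      · rw [Equiv.swap_apply_of_ne_of_ne hia hib]
        by_cases hic : i = c
        · subst hic; exact h5
        · exact h3 i hia hib hic
  have hTac : M.1 a c = 2 → M.1 b b = 2 → M = T a c := by
    intro h4 h5
    apply eq_T
    intro i
    by_cases hia : i = a
    · subst hia; rw [Equiv.swap_apply_left]; exact h4
    · by_cases hic : i = c
      · subst hic; rw [Equiv.swap_apply_right, symm]; exact h4
      · rw [Equiv.swap_apply_of_ne_of_ne hia hic]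
        by_cases hib : i = b
        · subst hib; exact h5
        · exact h3 i hia hib hic
  have hTbc : M.1 b c = 2 → M.1 a a = 2 → M = T b c := by
    intro h4 h5
    apply eq_T
    intro i
    by_cases hib : i = b
    · subst hib; rw [Equiv.swap_apply_left]; exact h4
    · by_cases hic : i = c
      · subst hic; rw [Equiv.swap_apply_right, symm]; exact h4
      · rw [Equiv.swap_apply_of_ne_of_ne hib hic]
        by_cases hia : i = a
        · subst hia; exact h5
        · exact h3 i hia hib hic
  rcases ra with ra | ra | ra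
  · rcases rb with rb | rb | rb
    · omega
    · left; apply hD <;> omega
    · right; right; right; apply hTbc <;> omega
  · right; left; apply hTab <;> omega
  · right; right; left; apply hTac <;> omega

/-- a matrix below `2C` equals `C` -/
lemma eq_C {M : Pt n} (h : ∀ i j, M.1 i j ≤ 2 * cFun a b c i j) : M = C hab hac hbc := by
  have hA : ∀ i j, M.1 i j ≤ aFun a b c i j := by
    intro i j
    have h1 := h i j
    have h2 := sum_C hab hac hbc i j
    rw [C_apply] at h2
    omega
  obtain ⟨h3, ha, hb, hc⟩ := rows_of_le hab hac hbc hA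
  have haa := h a a
  have hbb := h b b
  have hcc := h c c
  simp only [cFun, if_true, true_or, or_true, mul_zero, Nat.le_zero] at haa hbb hcc
  apply Subtype.ext
  ext i j
  rw [C_apply]
  have hij := h i j
  unfold cFun at hij ⊢
  by_cases hE : i = j
  · subst hE
    rw [if_pos rfl] at hij ⊢
    split_ifs at hij ⊢ with h4
    · omega
    · push Not at h4
      exact h3 i h4.1 h4.2.1 h4.2.2
  · rw [if_neg hE] at hij ⊢
    split_ifs at hij ⊢ with h4
    · obtain ⟨h5, h6⟩ := h4
      have sab := symm M b a
      have sac := symm M c a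
      have sbc := symm M c b
      rcases h5 with rfl | rfl | rfl <;> rcases h6 with rfl | rfl | rfl <;>
        first
        | exact absurd rfl hE
        | omega
    · omega

end

/-! ### Values -/

lemma T_l (x y : Fin n) : (T x y).1 x y = 2 := by simp [T_apply]

lemma T_fix {x y z : Fin n} (h1 : z ≠ x) (h2 : z ≠ y) : (T x y).1 z z = 2 := by
  rw [T_apply, Equiv.swap_apply_of_ne_of_ne h1 h2, if_pos rfl]

lemma T_zl {x y : Fin n} (h : x ≠ y) : (T x y).1 x x = 0 := by
  rw [T_apply, Equiv.swap_apply_left, if_neg h.symm]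

lemma T_zr {x y : Fin n} (h : x ≠ y) : (T x y).1 y y = 0 := by
  rw [T_apply, Equiv.swap_apply_right, if_neg h]

/-- value of `T x z` at `(x, y)` -/
lemma T_o {x y z : Fin n} (h : y ≠ z) : (T x z).1 x y = 0 := by
  rw [T_apply, Equiv.swap_apply_left, if_neg h.symm]

/-- value of `T y z` at `(x, _)` -/
lemma T_p {x y z w : Fin n} (h1 : x ≠ y) (h2 : x ≠ z) (h3 : x ≠ w) : (T y z).1 x w = 0 := by
  rw [T_apply, Equiv.swap_apply_of_ne_of_ne h1 h2, if_neg h3]

lemma D_d (x : Fin n) : (D : Pt n).1 x x = 2 := by simp [D_apply]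

lemma T_comm (x y : Fin n) : T x y = T y x := by
  apply Subtype.ext
  ext i j
  rw [T_apply, T_apply, Equiv.swap_comm]

lemma D_ne_T {x y : Fin n} (h : x ≠ y) : (D : Pt n) ≠ T x y := by
  intro he
  have := D_d x
  rw [he, T_zl h] at this
  omega

lemma T_ne_T1 {a b c : Fin n} (hbc : b ≠ c) : T a b ≠ T a c := by
  intro he
  have := T_l a b
  rw [he, T_o hbc] at this
  omega

lemma T_ne_T2 {a b c : Fin n} (hab : a ≠ b) (hac : a ≠ c) : T a b ≠ T b c := by
  intro he
  have := T_l a b
  rw [he, T_p hab hac hab] at this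
  omega

lemma T_ne_T3 {a b c : Fin n} (hab : a ≠ b) (hac : a ≠ c) : T a c ≠ T b c := by
  intro he
  have := T_l a c
  rw [he, T_p hab hac hac] at this
  omega

lemma twos_D : n ≤ twos (D : Pt n) := twos_of_rows fun i => ⟨i, D_d i⟩

lemma twos_T (x y : Fin n) : n ≤ twos (T x y) :=
  twos_of_rows fun i => ⟨Equiv.swap x y i, by simp [T_apply]⟩

section Core

variable {a b c : Fin n} (hab : a ≠ b) (hac : a ≠ c) (hbc : b ≠ c)

lemma twos_C : ¬ n ≤ twos (C hab hac hbc) := by
  intro h
  obtain ⟨j, hj⟩ := rows_of_twos h a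
  rw [C_apply, cFun] at hj
  simp only [true_or, if_true, true_and] at hj
  split_ifs at hj
  omega

include hab hac hbc in
lemma ne_C_D : D ≠ C hab hac hbc := by
  intro h
  exact twos_C hab hac hbc (h ▸ twos_D)

include hab hac hbc in
lemma ne_C_T (x y : Fin n) : T x y ≠ C hab hac hbc := by
  intro h
  exact twos_C hab hac hbc (h ▸ twos_T x y)

lemma aFun_a : aFun a b c a a = 2 := by simp [aFun]
lemma aFun_b : aFun a b c b b = 2 := by simp [aFun]
lemma aFun_c : aFun a b c c c = 2 := by simp [aFun]

variable {r : Pt n → Pt n → Prop} (hr : Admissible r)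

lemma witness {w s : Pt n →₀ ℕ} (hd : dg w = dg s) (h : (grevlex r hr.total).lt w s) :
    ∃ i, s i < w i ∧ ∀ j, r j i → w j = s j := by
  rcases h with h | ⟨-, h⟩
  · rw [← dg_none, ← dg_none, hd] at h
    exact absurd h (lt_irrefl _)
  · exact h

include hr in
lemma low {M N : Pt n} (hM : n ≤ twos M) (hN : ¬ n ≤ twos N) : r M N :=
  hr.twos _ _ (by omega)

include hr in
lemma irr (M : Pt n) : ¬ r M M := by
  have := hr.total
  exact irrefl_of r M

include hr in
lemma asm {M N : Pt n} (h : r M N) : ¬ r N M := by
  have := hr.total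
  exact asymm_of r h

lemma std_CC : Std dg (grevlex r hr.total) (Finsupp.single (C hab hac hbc) 2) := by
  intro w hd hlt
  obtain ⟨i, hi, -⟩ := witness hr hd hlt
  have hC : i = C hab hac hbc := by
    apply eq_C
    intro x y
    have h1 := entry_le_dg (w := w) (M := i) (c := 1) (by omega) x y
    rw [hd, dg_single_some, C_apply] at h1
    omega
  subst hC
  have hdeg : w.degree = 2 := by
    rw [← dg_none, hd, dg_none, Finsupp.degree_single]
  have h2 := sum_le_degree w {C hab hac hbc}
  rw [Finset.sum_singleton] at h2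
  rw [Finsupp.single_eq_same] at hi
  omega

lemma std_DC : Std dg (grevlex r hr.total)
    (Finsupp.single D 1 + Finsupp.single (C hab hac hbc) 1) := by
  classical
  intro w hd hlt
  obtain ⟨i, hi, hlow⟩ := witness hr hd hlt
  have hE : ∀ x y, dg w (some (x, y)) = (D : Pt n).1 x y + (C hab hac hbc).1 x y := by
    intro x y
    rw [hd, map_add, Finsupp.add_apply, dg_single_some, dg_single_some, one_mul, one_mul]
  have hdeg : w.degree = 2 := by
    rw [← dg_none, hd, dg_none, map_add, Finsupp.degree_single, Finsupp.degree_single]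
  have hsD : (Finsupp.single D 1 + Finsupp.single (C hab hac hbc) 1 : Pt n →₀ ℕ) D = 1 := by
    rw [Finsupp.add_apply, Finsupp.single_eq_same,
      Finsupp.single_eq_of_ne (ne_C_D hab hac hbc), add_zero]
  have hsC : (Finsupp.single D 1 + Finsupp.single (C hab hac hbc) 1 : Pt n →₀ ℕ)
      (C hab hac hbc) = 1 := by
    rw [Finsupp.add_apply, Finsupp.single_eq_same,
      Finsupp.single_eq_of_ne (ne_C_D hab hac hbc).symm]
  by_cases h2 : n ≤ twos i
  · have h4 := four hab hac hbc (M := i) (fun x y => by
      have h1 := entry_le_dg (w := w) (M := i) (c := 1) (by omega) x y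
      have h5 := sum_C hab hac hbc x y
      rw [hE] at h1
      omega) h2
    rcases h4 with rfl | rfl | rfl | rfl
    · rw [hsD] at hi
      have h1 := entry_le_dg (w := w) (M := D) (c := 2) hi a a
      rw [hE, D_d, C_apply] at h1
      simp [cFun] at h1
    · have h1 := entry_le_dg (w := w) (M := T a b) (c := 1) (by omega) a b
      rw [hE, T_l, D_apply, C_apply] at h1
      simp [cFun, hab] at h1
    · have h1 := entry_le_dg (w := w) (M := T a c) (c := 1) (by omega) a c
      rw [hE, T_l, D_apply, C_apply] at h1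
      simp [cFun, hac] at h1
    · have h1 := entry_le_dg (w := w) (M := T b c) (c := 1) (by omega) b c
      rw [hE, T_l, D_apply, C_apply] at h1
      simp [cFun, hbc] at h1
  · have hD : w D = 1 := by
      rw [hlow D (low hr twos_D h2), hsD]
    have hne : D ≠ i := by
      rintro rfl
      exact h2 twos_D
    have hC : i = C hab hac hbc := by
      apply eq_C
      intro x y
      have h1 := entry_le_dg2 (w := w) (M := D) (N := i) (c := 1) (d := 1) hne (by omega)
        (by omega) x y
      rw [hE, C_apply] at h1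
      omega
    subst hC
    rw [hsC] at hi
    have h3 := sum_le_degree w {D, C hab hac hbc}
    rw [Finset.sum_pair hne] at h3
    omega

include hab hac hbc in
lemma std_TT : Std dg (grevlex r hr.total)
    (Finsupp.single (T a b) 1 + Finsupp.single (T a c) 1) := by
  classical
  intro w hd hlt
  obtain ⟨i, hi, hlow⟩ := witness hr hd hlt
  have hE : ∀ x y, dg w (some (x, y)) = (T a b).1 x y + (T a c).1 x y := by
    intro x y
    rw [hd, map_add, Finsupp.add_apply, dg_single_some, dg_single_some, one_mul, one_mul]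
  have hdeg : w.degree = 2 := by
    rw [← dg_none, hd, dg_none, map_add, Finsupp.degree_single, Finsupp.degree_single]
  have hs1 : (Finsupp.single (T a b) 1 + Finsupp.single (T a c) 1 : Pt n →₀ ℕ)
      (T a b) = 1 := by
    rw [Finsupp.add_apply, Finsupp.single_eq_same, Finsupp.single_eq_of_ne (T_ne_T1 hbc),
      add_zero]
  have hs2 : (Finsupp.single (T a b) 1 + Finsupp.single (T a c) 1 : Pt n →₀ ℕ)
      (T a c) = 1 := by
    rw [Finsupp.add_apply, Finsupp.single_eq_same, Finsupp.single_eq_of_ne (T_ne_T1 hbc).symm]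
  by_cases h2 : n ≤ twos i
  · have h4 := four hab hac hbc (M := i) (fun x y => by
      have h1 := entry_le_dg (w := w) (M := i) (c := 1) (by omega) x y
      have h5 := sum_T hab hac hbc x y
      rw [hE] at h1
      omega) h2
    rcases h4 with rfl | rfl | rfl | rfl
    · have h1 := entry_le_dg (w := w) (M := D) (c := 1) (by omega) a a
      rw [hE, D_d, T_zl hab, T_zl hac] at h1
      omega
    · rw [hs1] at hi
      have h1 := entry_le_dg (w := w) (M := T a b) (c := 2) hi a b
      rw [hE, T_l, T_o hbc] at h1
      omega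
    · rw [hs2] at hi
      have h1 := entry_le_dg (w := w) (M := T a c) (c := 2) hi a c
      rw [hE, T_l, T_o hbc.symm] at h1
      omega
    · have h1 := entry_le_dg (w := w) (M := T b c) (c := 1) (by omega) a a
      rw [hE, T_fix hab hac, T_zl hab, T_zl hac] at h1
      omega
  · have h3 : w (T a b) = 1 := by
      rw [hlow _ (low hr (twos_T a b) h2), hs1]
    have h4 : w (T a c) = 1 := by
      rw [hlow _ (low hr (twos_T a c) h2), hs2]
    have hn1 : T a b ≠ i := by
      rintro rfl
      exact h2 (twos_T a b)
    have hn2 : T a c ≠ i := by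
      rintro rfl
      exact h2 (twos_T a c)
    have h5 := sum_le_degree w {T a b, T a c, i}
    rw [Finset.sum_insert (by simp [hn1, T_ne_T1 hbc]), Finset.sum_pair hn2] at h5
    omega

/-- the monomial `t_D t_C²` -/
noncomputable def vC : Pt n →₀ ℕ := Finsupp.single D 1 + Finsupp.single (C hab hac hbc) 2

/-- the monomial `t_{ab} t_{ac} t_{bc}` -/
noncomputable def uT (a b c : Fin n) : Pt n →₀ ℕ :=
  Finsupp.single (T a b) 1 + Finsupp.single (T a c) 1 + Finsupp.single (T b c) 1

lemma dg_vC (x y : Fin n) : dg (vC hab hac hbc) (some (x, y)) = aFun a b c x y := by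
  rw [vC, map_add, Finsupp.add_apply, dg_single_some, dg_single_some, one_mul,
    sum_C hab hac hbc]

include hab hac hbc in
lemma dg_uT (x y : Fin n) : dg (uT a b c) (some (x, y)) = aFun a b c x y := by
  rw [uT, map_add, map_add, Finsupp.add_apply, Finsupp.add_apply, dg_single_some,
    dg_single_some, dg_single_some, one_mul, one_mul, one_mul, sum_T hab hac hbc]

lemma deg_vC : (vC hab hac hbc).degree = 3 := by
  rw [vC, map_add, Finsupp.degree_single, Finsupp.degree_single]

lemma deg_uT : (uT a b c).degree = 3 := by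
  rw [uT, map_add, map_add, Finsupp.degree_single, Finsupp.degree_single,
    Finsupp.degree_single]

lemma dg_eq : dg (uT a b c) = dg (vC hab hac hbc) := by
  ext p
  rcases p with _ | ⟨x, y⟩
  · rw [dg_none, dg_none, deg_uT, deg_vC]
  · rw [dg_uT hab hac hbc, dg_vC]

lemma vC_D : vC hab hac hbc D = 1 := by
  rw [vC, Finsupp.add_apply, Finsupp.single_eq_same,
    Finsupp.single_eq_of_ne (ne_C_D hab hac hbc), add_zero]

lemma vC_C : vC hab hac hbc (C hab hac hbc) = 2 := by
  rw [vC, Finsupp.add_apply, Finsupp.single_eq_same,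
    Finsupp.single_eq_of_ne (ne_C_D hab hac hbc).symm, zero_add]

lemma vC_other {M : Pt n} (h1 : M ≠ D) (h2 : M ≠ C hab hac hbc) : vC hab hac hbc M = 0 := by
  rw [vC, Finsupp.add_apply, Finsupp.single_eq_of_ne h1, Finsupp.single_eq_of_ne h2,
    add_zero]

include hab hac hbc in
lemma uT_ab : uT a b c (T a b) = 1 := by
  rw [uT, Finsupp.add_apply, Finsupp.add_apply, Finsupp.single_eq_same,
    Finsupp.single_eq_of_ne (T_ne_T1 hbc), Finsupp.single_eq_of_ne (T_ne_T2 hab hac),
    add_zero, add_zero]

include hab hac hbc in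
lemma uT_ac : uT a b c (T a c) = 1 := by
  rw [uT, Finsupp.add_apply, Finsupp.add_apply, Finsupp.single_eq_same,
    Finsupp.single_eq_of_ne (T_ne_T1 hbc).symm, Finsupp.single_eq_of_ne (T_ne_T3 hab hac),
    add_zero, zero_add]

include hab hac hbc in
lemma uT_bc : uT a b c (T b c) = 1 := by
  rw [uT, Finsupp.add_apply, Finsupp.add_apply, Finsupp.single_eq_same,
    Finsupp.single_eq_of_ne (T_ne_T2 hab hac).symm,
    Finsupp.single_eq_of_ne (T_ne_T3 hab hac).symm, zero_add]

lemma uT_other {M : Pt n} (h1 : M ≠ T a b) (h2 : M ≠ T a c) (h3 : M ≠ T b c) :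
    uT a b c M = 0 := by
  rw [uT, Finsupp.add_apply, Finsupp.add_apply, Finsupp.single_eq_of_ne h1,
    Finsupp.single_eq_of_ne h2, Finsupp.single_eq_of_ne h3, add_zero, add_zero]

lemma std_vC (h1 : r D (T a b)) (h2 : r D (T a c)) (h3 : r D (T b c)) :
    Std dg (grevlex r hr.total) (vC hab hac hbc) := by
  classical
  intro w hd hlt
  obtain ⟨i, hi, hlow⟩ := witness hr hd hlt
  have hE : ∀ x y, dg w (some (x, y)) = aFun a b c x y := by
    intro x y
    rw [hd, dg_vC]
  have hdeg : w.degree = 3 := by
    rw [← dg_none, hd, dg_none, deg_vC]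
  by_cases h2' : n ≤ twos i
  · have h4 := four hab hac hbc (M := i) (fun x y => by
      have h1 := entry_le_dg (w := w) (M := i) (c := 1) (by omega) x y
      rw [hE] at h1
      omega) h2'
    rcases h4 with rfl | rfl | rfl | rfl
    · rw [vC_D] at hi
      have h1 := entry_le_dg (w := w) (M := D) (c := 2) hi a a
      rw [hE, D_d, aFun_a] at h1
      omega
    · have hD := hlow D h1
      rw [vC_D] at hD
      have h5 := entry_le_dg2 (w := w) (M := D) (N := T a b) (c := 1) (d := 1) (D_ne_T hab)
        (by omega) (by omega) c c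
      rw [hE, D_d, T_fix hac.symm hbc.symm, aFun_c] at h5
      omega
    · have hD := hlow D h2
      rw [vC_D] at hD
      have h5 := entry_le_dg2 (w := w) (M := D) (N := T a c) (c := 1) (d := 1) (D_ne_T hac)
        (by omega) (by omega) b b
      rw [hE, D_d, T_fix hab.symm hbc, aFun_b] at h5
      omega
    · have hD := hlow D h3
      rw [vC_D] at hD
      have h5 := entry_le_dg2 (w := w) (M := D) (N := T b c) (c := 1) (d := 1) (D_ne_T hbc)
        (by omega) (by omega) a a
      rw [hE, D_d, T_fix hab hac, aFun_a] at h5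
      omega
  · have hD : w D = 1 := by
      rw [hlow D (low hr twos_D h2'), vC_D]
    have hne : D ≠ i := by
      rintro rfl
      exact h2' twos_D
    have hC : i = C hab hac hbc := by
      apply eq_C
      intro x y
      have h1 := entry_le_dg2 (w := w) (M := D) (N := i) (c := 1) (d := 1) hne (by omega)
        (by omega) x y
      have h5 := sum_C hab hac hbc x y
      rw [C_apply] at h5
      rw [hE] at h1
      omega
    subst hC
    rw [vC_C] at hi
    have h3 := sum_le_degree w {D, C hab hac hbc}
    rw [Finset.sum_pair hne] at h3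
    omega

include hab hac hbc in
lemma std_uT {m : Pt n} (hm : m = T a b ∨ m = T a c ∨ m = T b c) (hmD : r m D) :
    Std dg (grevlex r hr.total) (uT a b c) := by
  classical
  intro w hd hlt
  obtain ⟨i, hi, hlow⟩ := witness hr hd hlt
  have hE : ∀ x y, dg w (some (x, y)) = aFun a b c x y := by
    intro x y
    rw [hd, dg_uT hab hac hbc]
  have hdeg : w.degree = 3 := by
    rw [← dg_none, hd, dg_none, deg_uT]
  by_cases h2' : n ≤ twos i
  · have h4 := four hab hac hbc (M := i) (fun x y => by
      have h1 := entry_le_dg (w := w) (M := i) (c := 1) (by omega) x y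
      rw [hE] at h1
      omega) h2'
    rcases h4 with rfl | rfl | rfl | rfl
    · have hmw := hlow m hmD
      rcases hm with rfl | rfl | rfl
      · rw [uT_ab hab hac hbc] at hmw
        have h5 := entry_le_dg2 (w := w) (M := D) (N := T a b) (c := 1) (d := 1) (D_ne_T hab)
          (by omega) (by omega) c c
        rw [hE, D_d, T_fix hac.symm hbc.symm, aFun_c] at h5
        omega
      · rw [uT_ac hab hac hbc] at hmw
        have h5 := entry_le_dg2 (w := w) (M := D) (N := T a c) (c := 1) (d := 1) (D_ne_T hac)
          (by omega) (by omega) b b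
        rw [hE, D_d, T_fix hab.symm hbc, aFun_b] at h5
        omega
      · rw [uT_bc hab hac hbc] at hmw
        have h5 := entry_le_dg2 (w := w) (M := D) (N := T b c) (c := 1) (d := 1) (D_ne_T hbc)
          (by omega) (by omega) a a
        rw [hE, D_d, T_fix hab hac, aFun_a] at h5
        omega
    · rw [uT_ab hab hac hbc] at hi
      have h1 := entry_le_dg (w := w) (M := T a b) (c := 2) hi c c
      rw [hE, T_fix hac.symm hbc.symm, aFun_c] at h1
      omega
    · rw [uT_ac hab hac hbc] at hi
      have h1 := entry_le_dg (w := w) (M := T a c) (c := 2) hi b b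
      rw [hE, T_fix hab.symm hbc, aFun_b] at h1
      omega
    · rw [uT_bc hab hac hbc] at hi
      have h1 := entry_le_dg (w := w) (M := T b c) (c := 2) hi a a
      rw [hE, T_fix hab hac, aFun_a] at h1
      omega
  · have h3 : w (T a b) = 1 := by
      rw [hlow _ (low hr (twos_T a b) h2'), uT_ab hab hac hbc]
    have h4 : w (T a c) = 1 := by
      rw [hlow _ (low hr (twos_T a c) h2'), uT_ac hab hac hbc]
    have h4' : w (T b c) = 1 := by
      rw [hlow _ (low hr (twos_T b c) h2'), uT_bc hab hac hbc]
    have hn1 : T a b ≠ i := by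
      rintro rfl
      exact h2' (twos_T a b)
    have hn2 : T a c ≠ i := by
      rintro rfl
      exact h2' (twos_T a c)
    have hn3 : T b c ≠ i := by
      rintro rfl
      exact h2' (twos_T b c)
    have h5 := sum_le_degree w {T a b, T a c, T b c, i}
    rw [Finset.sum_insert (by simp [hn1, T_ne_T1 hbc, T_ne_T2 hab hac]),
      Finset.sum_insert (by simp [hn2, T_ne_T3 hab hac]), Finset.sum_pair hn3] at h5
    omega

lemma exists_lt_of_ne {w u : Pt n →₀ ℕ} (h : w ≤ u) (hne : w ≠ u) : ∃ M, w M < u M := by
  by_contra hcon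
  push Not at hcon
  exact hne (le_antisymm h hcon)

include hab hac hbc in
lemma min_uT {w : Pt n →₀ ℕ} (h : w ≤ uT a b c) (hne : w ≠ uT a b c) :
    Std dg (grevlex r hr.total) w := by
  classical
  obtain ⟨M, hM⟩ := exists_lt_of_ne h hne
  by_cases h1 : M = T a b
  · subst h1
    rw [uT_ab hab hac hbc] at hM
    have hs := std_TT (a := c) (b := a) (c := b) hac.symm hbc.symm hab hr
    rw [T_comm c a, T_comm c b] at hs
    refine hs.mono ?_
    intro x
    have hx := h x
    rw [uT, Finsupp.add_apply, Finsupp.add_apply, Finsupp.single_apply] at hx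
    rw [Finsupp.add_apply]
    split_ifs at hx with h2
    · rw [← h2]; omega
    · omega
  · by_cases h2 : M = T a c
    · subst h2
      rw [uT_ac hab hac hbc] at hM
      have hs := std_TT (a := b) (b := a) (c := c) hab.symm hbc hac hr
      rw [T_comm b a] at hs
      refine hs.mono ?_
      intro x
      have hx := h x
      rw [uT, Finsupp.add_apply, Finsupp.add_apply,
        Finsupp.single_apply (a := T a c)] at hx
      rw [Finsupp.add_apply]
      split_ifs at hx with h2
      · rw [← h2]; omega
      · omega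
    · by_cases h3 : M = T b c
      · subst h3
        rw [uT_bc hab hac hbc] at hM
        have hs := std_TT hab hac hbc hr
        refine hs.mono ?_
        intro x
        have hx := h x
        rw [uT, Finsupp.add_apply, Finsupp.add_apply,
          Finsupp.single_apply (a := T b c)] at hx
        rw [Finsupp.add_apply]
        split_ifs at hx with h2
        · rw [← h2]; omega
        · omega
      · rw [uT_other h1 h2 h3] at hM
        omega

lemma min_vC {w : Pt n →₀ ℕ} (h : w ≤ vC hab hac hbc) (hne : w ≠ vC hab hac hbc) :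
    Std dg (grevlex r hr.total) w := by
  classical
  obtain ⟨M, hM⟩ := exists_lt_of_ne h hne
  by_cases h1 : M = D
  · subst h1
    rw [vC_D] at hM
    refine (std_CC hab hac hbc hr).mono ?_
    intro x
    have hx := h x
    rw [vC, Finsupp.add_apply, Finsupp.single_apply] at hx
    split_ifs at hx with h2
    · rw [← h2]; omega
    · omega
  · by_cases h2 : M = C hab hac hbc
    · subst h2
      rw [vC_C] at hM
      refine (std_DC hab hac hbc hr).mono ?_
      intro x
      have hx := h x
      rw [vC, Finsupp.add_apply, Finsupp.single_apply (a := C hab hac hbc)] at hx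
      rw [Finsupp.add_apply, Finsupp.single_apply (a := C hab hac hbc)]
      split_ifs at hx ⊢ with h2
      · rw [← h2]; omega
      · omega
    · rw [vC_other hab hac hbc h1 h2] at hM
      omega

theorem gb_core : ∃ u v : Pt n →₀ ℕ, GB dg (grevlex r hr.total) u v ∧
    ((u = uT a b c ∧ v = vC hab hac hbc) ∨ (u = vC hab hac hbc ∧ v = uT a b c)) := by
  have := hr.total
  have hwf : WellFounded r := Finite.wellFounded_of_trans_of_irrefl r
  obtain ⟨m, hm, hmin⟩ := hwf.has_min {M | M = D ∨ M = T a b ∨ M = T a c ∨ M = T b c}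
    ⟨D, Or.inl rfl⟩
  have hlt : ∀ x, (x = D ∨ x = T a b ∨ x = T a c ∨ x = T b c) → x ≠ m → r m x := by
    intro x hx hxm
    rcases trichotomous_of r m x with h | h | h
    · exact h
    · exact absurd h.symm hxm
    · exact absurd h (hmin x hx)
  have hmtwos : n ≤ twos m := by
    rcases hm with rfl | rfl | rfl | rfl
    · exact twos_D
    · exact twos_T _ _
    · exact twos_T _ _
    · exact twos_T _ _
  have hmC : r m (C hab hac hbc) := low hr hmtwos (twos_C hab hac hbc)
  have hzero : ∀ j, r j m → vC hab hac hbc j = 0 ∧ uT a b c j = 0 := by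
    intro j hj
    have h0 : ¬ (j = D ∨ j = T a b ∨ j = T a c ∨ j = T b c) := fun h => hmin j h hj
    push Not at h0
    have hC : j ≠ C hab hac hbc := by
      rintro rfl
      exact asm hr hmC hj
    exact ⟨vC_other hab hac hbc h0.1 hC, uT_other h0.2.1 h0.2.2.1 h0.2.2.2⟩
  by_cases hmD : m = D
  · subst hmD
    refine ⟨uT a b c, vC hab hac hbc, ⟨dg_eq hab hac hbc, ?_, ?_, ?_⟩, Or.inl ⟨rfl, rfl⟩⟩
    · right
      refine ⟨by rw [deg_uT, deg_vC], D, ?_, ?_⟩
      · rw [vC_D, uT_other (D_ne_T hab) (D_ne_T hac) (D_ne_T hbc)]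
        exact Nat.one_pos
      · intro j hj
        rw [(hzero j hj).1, (hzero j hj).2]
    · exact std_vC hab hac hbc hr (hlt _ (by simp) (D_ne_T hab).symm)
        (hlt _ (by simp) (D_ne_T hac).symm) (hlt _ (by simp) (D_ne_T hbc).symm)
    · intro w hw hne
      exact min_uT hab hac hbc hr hw hne
  · have hm' : m = T a b ∨ m = T a c ∨ m = T b c := by
      rcases hm with h | h
      · exact absurd h hmD
      · exact h
    refine ⟨vC hab hac hbc, uT a b c, ⟨(dg_eq hab hac hbc).symm, ?_, ?_, ?_⟩,
      Or.inr ⟨rfl, rfl⟩⟩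
    · right
      refine ⟨by rw [deg_uT, deg_vC], m, ?_, ?_⟩
      · have hmC' : m ≠ C hab hac hbc := by
          rintro rfl
          exact irr hr _ hmC
        rw [vC_other hab hac hbc hmD hmC']
        rcases hm' with rfl | rfl | rfl
        · rw [uT_ab hab hac hbc]; exact Nat.one_pos
        · rw [uT_ac hab hac hbc]; exact Nat.one_pos
        · rw [uT_bc hab hac hbc]; exact Nat.one_pos
      · intro j hj
        rw [(hzero j hj).1, (hzero j hj).2]
    · exact std_uT hab hac hbc hr hm' (hlt _ (by simp) (Ne.symm hmD))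
    · intro w hw hne
      exact min_vC hab hac hbc hr hw hne

end Core

/-! ### Conclusions -/

/-- the matrix with entries `2` at `(i, j)` for `i, j < 3`, entries `6` at `(i, i)` for `3 ≤ i`
and `0` elsewhere -/
def A (n : ℕ) : Matrix (Fin n) (Fin n) ℕ :=
  Matrix.of fun i j => if i.val < 3 ∧ j.val < 3 then 2 else if i = j then 6 else 0

/-- admissible orders exist -/
theorem exists_admissible (n : ℕ) : ∃ r : Pt n → Pt n → Prop, Admissible r := by
  classical
  obtain ⟨m, ⟨e⟩⟩ := Finite.exists_equiv_fin (Pt n)
  refine ⟨fun M N => twos N < twos M ∨ (twos N = twos M ∧ e M < e N), ⟨?_, ?_⟩⟩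
  · refine { trichotomous := ?_, irrefl := ?_, trans := ?_ }
    · intro M N h1 h2
      by_contra hne
      have hne' : e M ≠ e N := fun h => hne (e.injective h)
      rcases lt_trichotomy (twos M) (twos N) with h | h | h
      · exact h2 (Or.inl h)
      · rcases lt_or_gt_of_ne hne' with h' | h'
        · exact h1 (Or.inr ⟨h.symm, h'⟩)
        · exact h2 (Or.inr ⟨h, h'⟩)
      · exact h1 (Or.inl h)
    · intro M h
      rcases h with h | ⟨-, h⟩
      · exact lt_irrefl _ h
      · exact lt_irrefl _ h
    · intro M N P h h'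
      rcases h with h | ⟨h, h1⟩ <;> rcases h' with h' | ⟨h', h1'⟩
      · left; omega
      · left; omega
      · left; omega
      · right; exact ⟨h'.trans h, h1.trans h1'⟩
  · intro M N h
    exact Or.inl h

theorem main (n : ℕ) (hn : 4 ≤ n) (k : Type) [Field k] (r : Pt n → Pt n → Prop)
    (hr : Admissible r) :
    ∃ G : Set (MvPolynomial (Pt n) k),
      IsReducedGroebner (grevlex r hr.total) (toricIdeal k n) G ∧
      (∀ G', IsReducedGroebner (grevlex r hr.total) (toricIdeal k n) G' → G' = G) ∧
      ∃ g ∈ G, HasMatrix g (A n) 3 := by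
  classical
  have hI := fibred k n
  refine ⟨gbSet k dg (grevlex r hr.total), isReducedGroebner_gb hI _,
    fun G' hG' => eq_gbSet hI _ hG', ?_⟩
  have hab : (⟨0, by omega⟩ : Fin n) ≠ ⟨1, by omega⟩ := by simp [Fin.ext_iff]
  have hac : (⟨0, by omega⟩ : Fin n) ≠ ⟨2, by omega⟩ := by simp [Fin.ext_iff]
  have hbc : (⟨1, by omega⟩ : Fin n) ≠ ⟨2, by omega⟩ := by simp [Fin.ext_iff]
  obtain ⟨u, v, hgb, huv⟩ := gb_core hab hac hbc hr
  have hA : ∀ x y : Fin n, aFun (⟨0, by omega⟩ : Fin n) ⟨1, by omega⟩ ⟨2, by omega⟩ x y =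
      A n x y := by
    intro x y
    have h3 : ∀ z : Fin n, (z = ⟨0, by omega⟩ ∨ z = ⟨1, by omega⟩ ∨ z = ⟨2, by omega⟩) ↔
        z.val < 3 := by
      intro z
      simp only [Fin.ext_iff]
      omega
    simp only [aFun, A, Matrix.of_apply, h3]
  have hE : ∀ w : Pt n →₀ ℕ, (w = uT ⟨0, by omega⟩ ⟨1, by omega⟩ ⟨2, by omega⟩ ∨
      w = vC hab hac hbc) → dg w = expo (A n) 3 ∧ w.degree = 3 := by
    intro w hw
    rcases hw with rfl | rfl
    · refine ⟨?_, deg_uT⟩
      ext p
      rcases p with _ | ⟨x, y⟩
      · rw [dg_none, deg_uT]; rfl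
      · rw [dg_uT hab hac hbc, hA]; rfl
    · refine ⟨?_, deg_vC _ _ _⟩
      ext p
      rcases p with _ | ⟨x, y⟩
      · rw [dg_none, deg_vC]; rfl
      · rw [dg_vC, hA]; rfl
  have hu := hE u (by rcases huv with h | h; exacts [Or.inl h.1, Or.inr h.1])
  have hv := hE v (by rcases huv with h | h; exacts [Or.inr h.2, Or.inl h.2])
  refine ⟨_, ⟨u, v, hgb, rfl⟩, u, v, ?_, rfl, hu.2, hv.2, ?_, ?_⟩
  · rintro rfl
    exact TermOrder.irrefl _ _ hgb.lt
  · rw [piMap_monomial, hu.1, monomial_expo]
  · rw [piMap_monomial, hv.1, monomial_expo]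

end Pool.Agent.Q77.SymStoch
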